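import Mathlib
import Pool.Agent.H759R2.Kad.Props3

open scoped ComplexOrder InnerProductSpace ComplexConjugate
open Finset

noncomputable section

namespace H759R2.Kad

universe u v

namespace A03

theorem isWord_adj {B : Type u} [CStarAlgebra B] {n : ℕ} {F : Fam B n} {X : Set B} {K : ℕ}
    {c : Fin n} {y : B} (h : F.adj.IsWord X K c y) : F.IsWord X K c y := by
  obtain ⟨l, h1, h2, h3⟩ := h
  refine ⟨l, h1, h2, fun a ha => ?_⟩
  rcases h3 a ha with h4 | h4 | ⟨b, hb, s, h5 | h5⟩
  · exact Or.inl h4
  · exact Or.inr (Or.inl h4)
  · refine Or.inr (Or.inr ⟨b, hb, s, Or.inr ?_⟩)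
    rw [h5]
    rfl
  · refine Or.inr (Or.inr ⟨b, hb, s, Or.inl ?_⟩)
    rw [h5]
    exact star_star _

end A03

theorem prove3_adj : K_adj.{u} := by
  intro B _ τ n F X K ε hG
  constructor
  · intro c y hy
    have h := hG.avgr c y (A03.isWord_adj hy)
    have e : ∀ s, star (F.adj.g c s : B) * y * (F.adj.g c s : B) =
        (F.g c s : B) * y * star (F.g c s : B) := by
      intro s
      have e1 : (F.adj.g c s : B) = star (F.g c s : B) := rfl
      rw [e1, star_star]
    simp only [e]
    exact h
  · intro c y hy
    have h := hG.avgl c y (A03.isWord_adj hy)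
    have e : ∀ s, (F.adj.g c s : B) * y * star (F.adj.g c s : B) =
        star (F.g c s : B) * y * (F.g c s : B) := by
      intro s
      have e1 : (F.adj.g c s : B) = star (F.g c s : B) := rfl
      rw [e1, star_star]
    simp only [e]
    exact h
  · intro c y
    have h := hG.coefr c y
    have e : ∀ s, τ (y * star (F.adj.g c s : B)) • (F.adj.g c s : B) =
        τ (y * (F.g c s : B)) • star (F.g c s : B) := by
      intro s
      have e1 : (F.adj.g c s : B) = star (F.g c s : B) := rfl
      rw [e1, star_star]
    simp only [e]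
    exact h
  · intro c y
    have h := hG.coefl c y
    have e : ∀ s, τ (y * (F.adj.g c s : B)) • star (F.adj.g c s : B) =
        τ (y * star (F.g c s : B)) • (F.g c s : B) := by
      intro s
      have e1 : (F.adj.g c s : B) = star (F.g c s : B) := rfl
      rw [e1, star_star]
    simp only [e]
    exact h

end H759R2.Kad
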