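import Mathlib
import Pool.Agent.H759R2.Kad.Props3

open scoped ComplexOrder InnerProductSpace ComplexConjugate
open Finset

noncomputable section

namespace H759R2.Kad

universe u v

open CStarMatrix WithCStarModule in
theorem prove3_entries : K_entries.{u} := by
  intro B _ _ _ ι _ _ X
  refine ⟨?_, fun i j => CStarMatrix.norm_entry_le_norm⟩
  rw [Finset.sum_comm, CStarMatrix.norm_def]
  refine (toCLM X).opNorm_le_bound (by positivity) fun v => ?_
  simp only [toCLM_apply_eq_sum, Finset.sum_mul]
  apply pi_norm_le_sum_norm _ |>.trans
  gcongr with i _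
  apply norm_sum_le _ _ |>.trans
  gcongr with j _
  apply norm_mul_le _ _ |>.trans
  rw [mul_comm]
  gcongr
  exact norm_apply_le_norm v j

end H759R2.Kad
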